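import Pool.Agent.Lib.MP_cd509c_nt.DC.Main2

/-!
# The former hand-in DeBruijnNewman follows from the final theorem alone
-/

set_option autoImplicit false

namespace Pool.Agent.Lib.MP_cd509c_nt.DC

open Pool.Agent.Lib.MP_cd509c_nt.DN

theorem finalC : S_final2 := m_final2

theorem check_C (h : S_final2) :
    ∃ t₀ : ℝ, t₀ < 1 / 8 ∧ ∀ t : ℝ, t₀ ≤ t → ∀ z : ℂ, Ht t z = 0 → z.im = 0 := by
  obtain ⟨c, Λ, hc, -, hiff, hb, -⟩ := h
  refine ⟨Λ 0, ?_, fun t ht z hz => ?_⟩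
  · refine (hb 0).2.trans_lt ?_
    apply one_div_lt_one_div_of_lt (by norm_num)
    have : 0 < c * (((0 : ℕ) : ℝ) + 1) := by positivity
    linarith
  · exact (hiff 0 t).2 ht z (by simpa using hz)

/-- the problem itself -/
theorem check_Q (h : S_final2) : ∃ Λ : ℕ → ℝ,
    (∀ (n : ℕ) (t : ℝ), (∀ z : ℂ, iteratedDeriv n (Ht t) z = 0 → z.im = 0) ↔ Λ n ≤ t) ∧
    ((∀ z : ℂ, Lam (6 + Complex.I * z) = 0 → z.im = 0) ↔ Λ 0 = 0) := by
  obtain ⟨c, Λ, hc, -, hiff, hb, -⟩ := h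
  refine ⟨Λ, hiff, ?_⟩
  have h0 := hiff 0 0
  simp only [iteratedDeriv_zero] at h0
  have h1 : (∀ z : ℂ, Lam (6 + Complex.I * z) = 0 → z.im = 0) ↔ Λ 0 ≤ 0 := by
    rw [← h0]
    constructor
    · intro h z hz
      exact h z (by rw [← Ht_zero]; exact hz)
    · intro h z hz
      exact h z (by rw [Ht_zero]; exact hz)
  rw [h1]
  exact ⟨fun h => le_antisymm h (hb 0).1, fun h => h.le⟩

end Pool.Agent.Lib.MP_cd509c_nt.DC
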