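import Mathlib
import Pool.Agent.Lib.MP_cd509c_nt.DN.Defs

/-!
# The de Bruijn-Newman constants of the derivatives of the Xi-function of Delta

Definitions and the statements of the pieces.
-/

set_option autoImplicit false

namespace Pool.Agent.Lib.MP_cd509c_nt.DC

open Complex ComplexConjugate MeasureTheory Filter Topology
open Pool.Agent.Lib.MP_cd509c_nt.DN

/-- the `n`-th derivative of `H_t` -/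
noncomputable def HD (n : ℕ) (t : ℝ) : ℂ → ℂ := iteratedDeriv n (Ht t)

/-- all zeros of the `n`-th derivative of `H_t` are real -/
def AR (n : ℕ) (t : ℝ) : Prop := ∀ z : ℂ, HD n t z = 0 → z.im = 0

/-! ## A. Structure -/

/-- locally uniform limits of real polynomials all of whose zeros are zeros of the function -/
def AppZ (F : ℂ → ℂ) : Prop := ∀ R ε : ℝ, 0 < ε → ∃ P : Polynomial ℝ, P ≠ 0 ∧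
  (∀ z : ℂ, Polynomial.aeval z P = 0 → F z = 0) ∧
  ∀ z : ℂ, ‖z‖ ≤ R → ‖F z - Polynomial.aeval z P‖ ≤ ε

def S_ne : Prop := ∀ (n : ℕ) (t : ℝ), Differentiable ℂ (HD n t) ∧ (∃ v : ℂ, HD n t v ≠ 0) ∧
  (∀ z, HD n t (conj z) = conj (HD n t z)) ∧ ∀ z, HD n t (-z) = (-1) ^ n * HD n t z

def S_appZ : Prop := ∀ (n : ℕ) (t : ℝ), AppZ (HD n t)

/-- Jensen circles for entire functions -/
def S_jens : Prop := ∀ (F : ℂ → ℂ) (N : ℕ) (B : ℝ), Differentiable ℂ F → AppZ F → 0 ≤ B →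
  (∀ ζ, F ζ = 0 → |ζ.im| ≤ B) → (∃ v, iteratedDeriv N F v ≠ 0) →
  ∀ z, iteratedDeriv N F z = 0 → |z.im| ≤ B ∧
    (z.im ≠ 0 → ∃ ζ, F ζ = 0 ∧ ζ.im ≠ 0 ∧ |z.re - ζ.re| ≤ Real.sqrt N * B + 1)

/-- the heat flow preserves real zeros -/
def S_up : Prop := ∀ (n : ℕ) (s t : ℝ), s < t → AR n s → AR n t

def S_closed : Prop := ∀ (n : ℕ) (t : ℝ), (∀ s, t < s → AR n s) → AR n t

/-- differentiation preserves real zeros -/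
def S_anti : Prop := ∀ (n : ℕ) (t : ℝ), AR n t → AR (n + 1) t

/-- a common strip for the zeros of all derivatives -/
def S_strip : Prop := ∃ B : ℝ, 1 ≤ B ∧ ∀ (n : ℕ) (t : ℝ), 0 ≤ t → ∀ z, HD n t z = 0 → |z.im| ≤ B

/-! ## B. Upper bound -/

/-- Gaussian average of `f` -/
noncomputable def Gv (t : ℝ) (f : ℂ → ℂ) (w : ℂ) : ℂ :=
  (Nt t : ℂ) * ∫ v : ℝ, cexp (-(v : ℂ) ^ 2 / (4 * t)) * f (w + v)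

/-- the function `w ↦ Λ(6 + ix + w) / m_x` -/
noncomputable def fx (x : ℝ) (w : ℂ) : ℂ := Lam (s0 x + w) / m0 x

/-- the main term and the crude bound for `fx` -/
def S_H12 : Prop := ∃ C₂ A₁ : ℝ, 1 ≤ C₂ ∧ 1 ≤ A₁ ∧ ∀ A : ℝ, A₁ ≤ A → ∃ x₁ : ℝ, 3 ≤ x₁ ∧
  ∀ x : ℝ, x₁ ≤ x → |(rho x).re - Real.log x| ≤ 3 ∧ |(rho x).im| ≤ 2 ∧
    (∀ ζ : ℂ, A / 16 ≤ ζ.re → ζ.re ≤ 200 * A → |ζ.im| ≤ 60 * A →
      ‖fx x ζ - cexp (rho x * ζ)‖ ≤ 1 / 64 * ‖cexp (rho x * ζ)‖) ∧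
    ∀ ζ : ℂ, |ζ.im| ≤ 60 * A →
      ‖fx x ζ‖ ≤ Real.exp ((Real.log x + 3) * |ζ.re| + C₂ * Real.log x + ζ.re ^ 2)

/-- Gaussian averages: main term and crude bound -/
def S_gav : Prop := ∀ K C₂ : ℝ, 1 ≤ K → 1 ≤ C₂ → ∃ A₀ : ℝ, 1 ≤ A₀ ∧ ∀ A : ℝ, A₀ ≤ A →
  ∃ l₀ : ℝ, 1 ≤ l₀ ∧ ∀ (l t : ℝ) (ρ : ℂ) (f : ℂ → ℂ), l₀ ≤ l → 0 < t → t * l ≤ K →
    |ρ.re - l| ≤ 3 → |ρ.im| ≤ 2 → Differentiable ℂ f →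
    (∀ ζ : ℂ, A / 16 ≤ ζ.re → ζ.re ≤ 200 * A → |ζ.im| ≤ 60 * A →
      ‖f ζ - cexp (ρ * ζ)‖ ≤ 1 / 64 * ‖cexp (ρ * ζ)‖) →
    (∀ ζ : ℂ, |ζ.im| ≤ 60 * A →
      ‖f ζ‖ ≤ Real.exp ((l + 3) * |ζ.re| + C₂ * l + ζ.re ^ 2)) →
    (∀ w : ℂ, A / 8 ≤ w.re → w.re ≤ 100 * A → |w.im| ≤ 50 * A →
      ‖Gv t f w - cexp (ρ * w + t * ρ ^ 2)‖ ≤ 1 / 8 * ‖cexp (ρ * w + t * ρ ^ 2)‖) ∧
    ∀ w : ℂ, |w.im| ≤ 60 * A →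
      ‖Gv t f w‖ ≤ Real.exp ((l + 3) * |w.re| + (C₂ + 8 * K) * l + 2 * w.re ^ 2)

/-- from the two bounds to regularity -/
def S_toReg : Prop := ∀ ε C₃ : ℝ, 0 < ε → 1 ≤ C₃ → ∃ A₀ : ℝ, 1 ≤ A₀ ∧ ∀ A : ℝ, A₀ ≤ A →
  ∃ l₀ : ℝ, 1 ≤ l₀ ∧ ∀ (l t a : ℝ) (ρ : ℂ) (h : ℂ → ℂ), l₀ ≤ l → 0 < t → t ≤ 1 →
    A ≤ a → a ≤ 2 * A → |ρ.re - l| ≤ 3 → |ρ.im| ≤ 2 → Differentiable ℂ h →
    (∀ w : ℂ, A / 8 ≤ w.re → w.re ≤ 100 * A → |w.im| ≤ 50 * A →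
      ‖h w - cexp (ρ * w + t * ρ ^ 2)‖ ≤ 1 / 8 * ‖cexp (ρ * w + t * ρ ^ 2)‖) →
    (∀ w : ℂ, |w.im| ≤ 60 * A → ‖h w‖ ≤ Real.exp ((l + 3) * |w.re| + C₃ * l + 2 * w.re ^ 2)) →
    Reg ε (a * l) 1 40 (fun z => h (a * z) * cexp (-((a * l : ℝ) * z)))

/-- the flow in terms of `fx` -/
def S_link : Prop := (∀ (t x : ℝ) (w : ℂ), 0 < t → Gv t (fx x) w = Ht t (x - I * w) / m0 x) ∧
  (∀ (n : ℕ) (t x a : ℝ) (w : ℂ),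
    iteratedDeriv n (fun z : ℂ => Ht t (x - I * (a * z)) / m0 x) w =
      (-(I * a)) ^ n * HD n t (x - I * (a * w)) / m0 x) ∧
  ∀ t x a : ℝ, Sym (fun z : ℂ => Ht t (x - I * (a * z)) / m0 x)

/-- mixed flow at bounded heat displacement and large derivative displacement, one block -/
def S_blkM : Prop := ∀ K : ℝ, 1 ≤ K → ∃ A₀ : ℝ, 1 ≤ A₀ ∧ ∀ A : ℝ, A₀ ≤ A → ∃ x₀ : ℝ, 3 ≤ x₀ ∧
  ∀ (n : ℕ) (x t : ℝ), x₀ ≤ x → 0 < t → t * Real.log x ≤ K → A * Real.log x ≤ n →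
    (n : ℝ) ≤ 2 * A * Real.log x → ∀ z : ℂ, |z.re| = x → HD n t z = 0 → z.im = 0

/-- short times -/
def S_base : Prop := ∃ C : ℝ, 1 ≤ C ∧ ∀ n : ℕ, C ≤ n → ∃ t₀ : ℝ, 0 < t₀ ∧ ∀ t : ℝ, 0 ≤ t →
  t ≤ t₀ → ∀ z : ℂ, |z.re| ≤ Real.exp (n / C) → HD n t z = 0 → z.im = 0

/-- the induction over the blocks -/
def S_ind : Prop := ∀ K : ℝ, 1 ≤ K → ∃ A n₀ t₀ : ℝ, 1 ≤ A ∧ 1 ≤ n₀ ∧ 0 < t₀ ∧
  ∀ (n : ℕ) (t : ℝ), 0 < t → t ≤ t₀ → n₀ ≤ n → t * n ≤ K * A →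
    ∀ z : ℂ, |z.re| ≤ Real.exp (n / A) → HD n t z = 0 → z.im = 0

/-- upper bound -/
def S_upper : Prop := ∃ C : ℝ, 1 ≤ C ∧ ∀ (n : ℕ) (t : ℝ), C ≤ n → C ≤ n * t → AR n t

/-! ## C. Lower bound -/

/-- the entire Dirichlet series `∑ τ(m) m^{-s} exp (-τ log² m)` -/
noncomputable def DD (τ : ℝ) (s : ℂ) : ℂ :=
  ∑' m : ℕ, tau m * (m : ℂ) ^ (-s) * cexp (-(τ * Real.log m ^ 2 : ℝ))

/-- absolutely convergent, of order at most two, tends to `1`, not constant -/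
def S_DDent : Prop := ∀ τ : ℝ, 0 < τ →
  (∀ σ : ℝ, Summable fun m : ℕ => ‖tau m‖ * (m : ℝ) ^ (-σ) * Real.exp (-(τ * Real.log m ^ 2))) ∧
  Differentiable ℂ (DD τ) ∧ (∃ C : ℝ, ∀ s, ‖DD τ s‖ ≤ C * Real.exp (C * ‖s‖ ^ 2)) ∧
  (∀ ε : ℝ, 0 < ε → ∃ σ : ℝ, ∀ s : ℂ, σ ≤ s.re → ‖DD τ s - 1‖ ≤ ε) ∧ ∃ s, DD τ s ≠ 1

/-- zero-free entire functions of order two -/
def S_quad : Prop := ∀ (f : ℂ → ℂ) (C : ℝ), Differentiable ℂ f → (∀ s, f s ≠ 0) →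
  (∀ s, ‖f s‖ ≤ C * Real.exp (C * ‖s‖ ^ 2)) → ∃ a b c : ℂ, ∀ s, f s = cexp (a * s ^ 2 + b * s + c)

def S_DDzero : Prop := ∀ τ : ℝ, 0 < τ → ∃ s : ℂ, DD τ s = 0

/-- almost periodicity -/
def S_ap : Prop := ∀ τ R ε T₀ : ℝ, 0 < τ → 0 < ε → ∃ T : ℝ, T₀ ≤ T ∧
  ∀ s : ℂ, ‖s‖ ≤ R → ‖DD τ (s + T * I) - DD τ s‖ ≤ ε

/-- the Gamma factor on the line `Re s = 8` -/
noncomputable def G8 (y : ℝ) : ℂ := (2 * Real.pi : ℂ) ^ (-(8 + y * I : ℂ)) * Gamma (8 + y * I)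

/-- `log ((8 + iT) / 2π)` -/
noncomputable def r8 (T : ℝ) : ℂ := log (8 + T * I) - Real.log (2 * Real.pi)

/-- normalised ratio -/
noncomputable def gg (T v : ℝ) : ℂ := G8 (T + v) / G8 T * cexp (-(v * r8 T * I))

def S_gg : Prop := (∀ v : ℝ, Tendsto (fun T : ℝ => gg T v) atTop (𝓝 1)) ∧
  ∀ κ : ℝ, 0 < κ → ∃ C T₀ : ℝ, 1 ≤ T₀ ∧ ∀ T v : ℝ, T₀ ≤ T →
    ‖gg T v‖ ≤ C * Real.exp (C * |v| + κ * v ^ 2)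

/-- the point of the `s`-plane, shifted by `6` -/
noncomputable def wp (τ T : ℝ) (ω : ℂ) : ℂ := 2 + T * I + 2 * τ * (ω + r8 T)

/-- the normalised function -/
noncomputable def PP (τ T : ℝ) (ω : ℂ) : ℂ :=
  Ht (-τ) (-(I * wp τ T ω)) / (cexp (τ * (ω + r8 T) ^ 2) * G8 T)

/-- integral representation -/
def S_rep : Prop := ∀ (τ T : ℝ) (ω : ℂ), 0 < τ → PP τ T ω =
  (Nt τ : ℂ) * ∫ v : ℝ, gg T v * Lf (8 + (T + v) * I) * cexp (-(v : ℂ) ^ 2 / (4 * τ) - v * ω * I)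

/-- the main term -/
def S_main : Prop := ∀ (τ T : ℝ) (ω : ℂ), 0 < τ →
  (Nt τ : ℂ) * ∫ v : ℝ, Lf (8 + (T + v) * I) * cexp (-(v : ℂ) ^ 2 / (4 * τ) - v * ω * I) =
    cexp (-(τ * ω ^ 2)) * DD τ (8 + T * I + 2 * τ * ω)

/-- the asymptotic formula -/
def S_asy : Prop := ∀ τ B ε : ℝ, 0 < τ → 0 < ε → ∃ T₀ : ℝ, ∀ T : ℝ, T₀ ≤ T → ∀ ω : ℂ, ‖ω‖ ≤ B →
  ‖PP τ T ω - cexp (-(τ * ω ^ 2)) * DD τ (8 + T * I + 2 * τ * ω)‖ ≤ ε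

/-- the normalised derivatives -/
noncomputable def Pn (τ : ℝ) (r : ℂ) (f : ℂ → ℂ) : ℕ → ℂ → ℂ
  | 0 => f
  | n + 1 => fun ω => (1 + ω / r) * Pn τ r f n ω + deriv (Pn τ r f n) ω / (2 * τ * r)

/-- limits of the normalised derivatives -/
def S_lim : Prop := ∀ (τ : ℝ) (r : ℕ → ℂ) (f : ℕ → ℂ → ℂ) (Q : ℂ → ℂ), 0 < τ →
  Tendsto (fun j => ‖r j‖) atTop atTop → (∀ j, Differentiable ℂ (f j)) → Differentiable ℂ Q →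
  TendstoLocallyUniformly f Q atTop → ∀ n : ℕ, (∀ j, Differentiable ℂ (Pn τ (r j) (f j) n)) ∧
    TendstoLocallyUniformly (fun j => Pn τ (r j) (f j) n) Q atTop

/-- the derivatives of `H_{-τ}` in terms of `Pn` -/
def S_der : Prop := ∀ (τ T : ℝ) (ω : ℂ) (n : ℕ), 0 < τ →
  (-(2 * τ * I : ℂ)) ^ n * HD n (-τ) (-(I * wp τ T ω)) =
    G8 T * cexp (τ * (ω + r8 T) ^ 2) * (2 * τ * r8 T) ^ n * Pn τ (r8 T) (PP τ T) n ω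

/-- lower bound: for negative time every derivative has zeros far from the real axis -/
def S_lower : Prop := ∀ (n : ℕ) (t B : ℝ), t < 0 → ∃ z : ℂ, HD n t z = 0 ∧ B ≤ z.im

/-! ## D. Final statement -/

def S_final : Prop := ∃ (c : ℝ) (Λ : ℕ → ℝ), 0 < c ∧ Antitone Λ ∧
  (∀ (n : ℕ) (t : ℝ), (∀ z : ℂ, iteratedDeriv n (Ht t) z = 0 → z.im = 0) ↔ Λ n ≤ t) ∧
  (∀ n : ℕ, 0 ≤ Λ n ∧ Λ n ≤ 1 / (8 + c * (n + 1))) ∧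
  ∀ (n : ℕ) (t B : ℝ), t < 0 → ∃ z : ℂ, iteratedDeriv n (Ht t) z = 0 ∧ B ≤ z.im

end Pool.Agent.Lib.MP_cd509c_nt.DC
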