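import Pool.Agent.Lib.MP_cd509c_nt.DC.Defs

/-!
# Stage 2: the constant `1/32`

Statements of the pieces.
-/

set_option autoImplicit false

namespace Pool.Agent.Lib.MP_cd509c_nt.DC

open Complex ComplexConjugate MeasureTheory Filter Topology
open Pool.Agent.Lib.MP_cd509c_nt.DN
open scoped Nat

/-- the kernel `(-d/dζ)^n (exp (ζ²) / ζ)` -/
noncomputable def Kn (n : ℕ) (ζ : ℂ) : ℂ :=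
  (-1) ^ n * iteratedDeriv n (fun z : ℂ => cexp (z ^ 2) / z) ζ

/-- integral over the line `Re ζ = c` -/
noncomputable def LI (n : ℕ) (f : ℂ → ℂ) (c : ℝ) (w : ℂ) : ℂ :=
  1 / (2 * Real.pi) * ∫ η : ℝ, f (w + (c + η * I)) * Kn n (c + η * I)

/-- the right half of the `n`-th derivative of the Gaussian average -/
noncomputable def EE (n : ℕ) (t : ℝ) (f : ℂ → ℂ) (w : ℂ) : ℂ :=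
  (Nt t : ℂ) * ∫ v : ℝ, cexp (-(v : ℂ) ^ 2 / (4 * t)) * LI n f 1 (w + v)

/-- bounds for the kernel -/
def S_Kn : Prop :=
  (∀ (n : ℕ) (c η : ℝ), 0 < c → ‖Kn n (c + η * I)‖ ≤
    n ! * (2 / c) ^ (n + 1) * Real.exp (4 * c ^ 2 - η ^ 2 / 4)) ∧
  ∀ A δ : ℝ, 1 ≤ A → 0 < δ → ∃ (C θ : ℝ) (n₀ : ℕ), 1 ≤ C ∧ 0 < θ ∧ θ < 1 ∧
    ∀ (n : ℕ) (c η : ℝ), n₀ ≤ n → 1 / A ≤ c → c ≤ A →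
      ‖Kn n (c + η * I)‖ ≤ C * n ! * (1 / c) ^ n * Real.exp (-(η ^ 2 / 4)) ∧
      (|η| ≤ A → ‖Kn n (c + η * I)‖ ≤ C * n ! * (1 / c) ^ n * Real.exp (-(n * η ^ 2 / C))) ∧
      (δ ≤ |η| → ‖Kn n (c + η * I)‖ ≤ C * n ! * (1 / c) ^ n * θ ^ n * Real.exp (-(η ^ 2 / 4)))

/-- action of the kernel on exponentials -/
def S_chi : Prop := ∀ ε : ℝ, 0 < ε → ∃ l₀ : ℝ, 1 ≤ l₀ ∧ ∀ (n : ℕ) (c : ℝ) (ρ : ℂ), 0 < c →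
  l₀ ≤ ρ.re → |ρ.im| ≤ 2 →
    Integrable (fun η : ℝ => cexp (ρ * (c + η * I)) * Kn n (c + η * I)) ∧
    ‖1 / (2 * Real.pi) * (∫ η : ℝ, cexp (ρ * (c + η * I)) * Kn n (c + η * I)) - ρ ^ n‖ ≤
      ε * ‖ρ ^ n‖

/-- the decomposition, for functions of growth order `3/2` -/
def S_dec : Prop := ∀ (f : ℂ → ℂ) (A : ℝ) (n : ℕ) (t : ℝ), Differentiable ℂ f →
  (∀ w, ‖f w‖ ≤ A * Real.exp (A * ‖w‖ ^ (3 / 2 : ℝ))) → 0 < t →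
  Differentiable ℂ (EE n t f) ∧
  (∀ (c : ℝ) (w : ℂ), 0 < c → LI n f c w = LI n f 1 w) ∧
  (∀ w : ℂ, Integrable fun v : ℝ => cexp (-(v : ℂ) ^ 2 / (4 * t)) * LI n f 1 (w + v)) ∧
  (Sym f → ∃ c₁ : ℂ, ‖c₁‖ = 1 ∧ ∀ w : ℂ,
    iteratedDeriv n (Gv t f) w = EE n t f w + c₁ * conj (EE n t f (-conj w)))

/-- `L(s)` and `Lam` to the right of the line `Re s = 13/2` -/
def S_f12 : Prop := (∀ x : ℝ, Differentiable ℂ (fx x) ∧ Sym (fx x) ∧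
    ∃ A : ℝ, ∀ w, ‖fx x w‖ ≤ A * Real.exp (A * ‖w‖ ^ (3 / 2 : ℝ))) ∧
  ∀ p : ℝ, 1 / 2 < p → ∃ c₂ C₂ x₂ : ℝ, 0 < c₂ ∧ 1 ≤ C₂ ∧ 3 ≤ x₂ ∧
    (∀ s : ℂ, 6 + p ≤ s.re → c₂ ≤ ‖Lf s‖ ∧ ‖Lf s‖ ≤ C₂) ∧
    (∀ s s' : ℂ, 6 + p ≤ s.re → 6 + p ≤ s'.re → ‖Lf s - Lf s'‖ ≤ C₂ * ‖s - s'‖) ∧
    (∀ x : ℝ, x₂ ≤ x → |(rho x).re - Real.log x| ≤ 3 ∧ |(rho x).im| ≤ 2 ∧
      ∀ w : ℂ, p ≤ w.re →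
        ‖fx x w‖ ≤ C₂ * Real.exp ((rho x).re * w.re + 4 * |w.im| + ‖w‖ ^ 2 / 16)) ∧
    ∀ R ε : ℝ, 0 < ε → ∃ x₁ : ℝ, ∀ x : ℝ, x₁ ≤ x → ∀ w : ℂ, p ≤ w.re → ‖w‖ ≤ R →
      ‖fx x w - cexp (rho x * w) * Lf (s0 x + w)‖ ≤ ε * ‖cexp (rho x * w)‖

/-- common hypotheses of the two asymptotic statements -/
structure Hyp (A C₂ p β l₀ ε R : ℝ) (n : ℕ) (t : ℝ) (ρ : ℂ) (f Q : ℂ → ℂ) : Prop where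
  large : l₀ ≤ ρ.re
  im : |ρ.im| ≤ 2
  n1 : ρ.re ≤ A * n
  n2 : n ≤ A * ρ.re
  t0 : 0 < t
  t1 : β ^ 2 ≤ 8 * n * t
  t2 : n * t ≤ A
  diff : Differentiable ℂ f
  growth : ∃ M : ℝ, ∀ w, ‖f w‖ ≤ M * Real.exp (M * ‖w‖ ^ (3 / 2 : ℝ))
  crude : ∀ w : ℂ, p ≤ w.re →
    ‖f w‖ ≤ C₂ * Real.exp (ρ.re * w.re + 4 * |w.im| + ‖w‖ ^ 2 / 16)
  fine : ∀ w : ℂ, p ≤ w.re → ‖w‖ ≤ R → ‖f w - cexp (ρ * w) * Q w‖ ≤ ε * ‖cexp (ρ * w)‖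
  bdd : ∀ w : ℂ, p ≤ w.re → ‖Q w‖ ≤ C₂
  lip : ∀ w w' : ℂ, p ≤ w.re → p ≤ w'.re → ‖Q w - Q w'‖ ≤ C₂ * ‖w - w'‖

/-- the displacement -/
noncomputable def bb (n : ℕ) (t : ℝ) (ρ : ℂ) : ℝ := n / ρ.re + 2 * t * ρ.re

/-- the part of the integral where the contour has to be moved to the right -/
def S_left : Prop := ∀ A B C₂ p β δ ε : ℝ, 1 ≤ A → 1 ≤ B → 1 ≤ C₂ → 0 < p → p < β → 0 < δ →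
  0 < ε → ∃ l₀ : ℝ, 1 ≤ l₀ ∧
    ∀ (n : ℕ) (t : ℝ) (ρ : ℂ) (f Q : ℂ → ℂ), Hyp A C₂ p β l₀ 1 1 n t ρ f Q →
      ∀ w : ℂ, |w.im| ≤ 1 →
        (-((β - p) / 4) ≤ w.re → w.re ≤ B →
          Nt t * ∫ v in Set.Iio (p - w.re - n / ρ.re),
            Real.exp (-v ^ 2 / (4 * t)) * ‖LI n f 1 (w + v)‖ ≤
              ε * (ρ.re ^ n * Real.exp (t * ρ.re ^ 2 + ρ.re * w.re))) ∧
        (w.re ≤ -δ → -B ≤ w.re →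
          Nt t * ∫ v in Set.Iio (p - w.re - n / ρ.re),
            Real.exp (-v ^ 2 / (4 * t)) * ‖LI n f 1 (w + v)‖ ≤
              ε * (ρ.re ^ n * Real.exp (t * ρ.re ^ 2 - ρ.re * w.re)))

/-- asymptotics of the right half for `Re w ≥ -δ` -/
def S_P1 : Prop := ∀ A B C₂ p β ε : ℝ, 1 ≤ A → 1 ≤ B → 1 ≤ C₂ → 0 < p → p < β → 0 < ε →
  ∃ ε' R l₀ : ℝ, 0 < ε' ∧ 1 ≤ R ∧ 1 ≤ l₀ ∧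
    ∀ (n : ℕ) (t : ℝ) (ρ : ℂ) (f Q : ℂ → ℂ), Hyp A C₂ p β l₀ ε' R n t ρ f Q →
      ∀ w : ℂ, -((β - p) / 4) ≤ w.re → w.re ≤ B → |w.im| ≤ 1 →
        ‖EE n t f w - Q (w + bb n t ρ) * (ρ ^ n * cexp (t * ρ ^ 2 + ρ * w))‖ ≤
          ε * ‖ρ ^ n * cexp (t * ρ ^ 2 + ρ * w)‖

/-- the right half is small to the left -/
def S_P2 : Prop := ∀ A B C₂ p β δ ε : ℝ, 1 ≤ A → 1 ≤ B → 1 ≤ C₂ → 0 < p → p < β → 0 < δ → 0 < ε →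
  ∃ l₀ : ℝ, 1 ≤ l₀ ∧
    ∀ (n : ℕ) (t : ℝ) (ρ : ℂ) (f Q : ℂ → ℂ), Hyp A C₂ p β l₀ 1 1 n t ρ f Q →
      ∀ y : ℝ, δ ≤ y → y ≤ B →
        ‖EE n t f (-(y : ℂ))‖ ≤ ε * ‖ρ ^ n * cexp (t * ρ ^ 2 + ρ * y)‖

/-- the middle range -/
def S_mid : Prop := ∀ A κ : ℝ, 1 ≤ A → 1 / 32 < κ → ∃ x₀ : ℝ, 3 ≤ x₀ ∧ ∀ (n : ℕ) (x t : ℝ),
  x₀ ≤ x → Real.log x ≤ A * n → n ≤ A * Real.log x → κ ≤ n * t → n * t ≤ A →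
    ∀ z : ℂ, |z.re| = x → HD n t z = 0 → z.im = 0

/-- the sharper upper bound -/
def S_sharp : Prop := ∀ κ : ℝ, 1 / 32 < κ → ∃ n₀ : ℕ, ∀ (n : ℕ) (t : ℝ), n₀ ≤ n → κ ≤ n * t → AR n t

/-- final statement, stage 2 -/
def S_final2 : Prop := ∃ (c : ℝ) (Λ : ℕ → ℝ), 0 < c ∧ Antitone Λ ∧
  (∀ (n : ℕ) (t : ℝ), (∀ z : ℂ, iteratedDeriv n (Ht t) z = 0 → z.im = 0) ↔ Λ n ≤ t) ∧
  (∀ n : ℕ, 0 ≤ Λ n ∧ Λ n ≤ 1 / (8 + c * (n + 1))) ∧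
  ∀ κ : ℝ, 1 / 32 < κ → ∃ n₀ : ℕ, ∀ n : ℕ, n₀ ≤ n → Λ n ≤ κ / n

end Pool.Agent.Lib.MP_cd509c_nt.DC
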