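import Pool.Agent.Lib.MP_cd509c_nt.DC.Defs
import Pool.Agent.Lib.MP_cd509c_nt.DN.Main4
import Pool.Agent.Lib.MP_cd509c_nt.DC.P.ne
import Pool.Agent.Lib.MP_cd509c_nt.DC.P.appZ
import Pool.Agent.Lib.MP_cd509c_nt.DC.P.jens
import Pool.Agent.Lib.MP_cd509c_nt.DC.P.up
import Pool.Agent.Lib.MP_cd509c_nt.DC.P.closed
import Pool.Agent.Lib.MP_cd509c_nt.DC.P.anti
import Pool.Agent.Lib.MP_cd509c_nt.DC.P.strip
import Pool.Agent.Lib.MP_cd509c_nt.DC.P.H12
import Pool.Agent.Lib.MP_cd509c_nt.DC.P.gav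
import Pool.Agent.Lib.MP_cd509c_nt.DC.P.toReg
import Pool.Agent.Lib.MP_cd509c_nt.DC.P.link
import Pool.Agent.Lib.MP_cd509c_nt.DC.P.blkM
import Pool.Agent.Lib.MP_cd509c_nt.DC.P.base
import Pool.Agent.Lib.MP_cd509c_nt.DC.P.ind
import Pool.Agent.Lib.MP_cd509c_nt.DC.P.upper
import Pool.Agent.Lib.MP_cd509c_nt.DC.P.DDent
import Pool.Agent.Lib.MP_cd509c_nt.DC.P.quad
import Pool.Agent.Lib.MP_cd509c_nt.DC.P.DDzero
import Pool.Agent.Lib.MP_cd509c_nt.DC.P.ap
import Pool.Agent.Lib.MP_cd509c_nt.DC.P.gg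
import Pool.Agent.Lib.MP_cd509c_nt.DC.P.rep
import Pool.Agent.Lib.MP_cd509c_nt.DC.P.main
import Pool.Agent.Lib.MP_cd509c_nt.DC.P.asy
import Pool.Agent.Lib.MP_cd509c_nt.DC.P.lim
import Pool.Agent.Lib.MP_cd509c_nt.DC.P.der
import Pool.Agent.Lib.MP_cd509c_nt.DC.P.lower
import Pool.Agent.Lib.MP_cd509c_nt.DC.P.final

/-!
# Assembly
-/

set_option autoImplicit false

namespace Pool.Agent.Lib.MP_cd509c_nt.DC

open Pool.Agent.Lib.MP_cd509c_nt.DN

theorem m_ne : S_ne := p_ne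
theorem m_appZ : S_appZ := p_appZ m_ne
theorem m_jens : S_jens := p_jens
theorem m_up : S_up := p_up m_ne m_appZ
theorem m_closed : S_closed := p_closed m_ne
theorem m_anti : S_anti := p_anti m_ne m_appZ m_jens
theorem m_strip : S_strip := p_strip m_ne m_appZ m_jens
theorem m_H12 : S_H12 := p_H12
theorem m_gav : S_gav := p_gav
theorem m_toReg : S_toReg := p_toReg
theorem m_link : S_link := p_link
theorem m_blkM : S_blkM := p_blkM m_ne m_strip m_H12 m_gav m_toReg m_link m_PD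
theorem m_base : S_base := p_base m_ne m_strip
theorem m_ind : S_ind := p_ind m_ne m_appZ m_jens m_strip m_blkM m_base
theorem m_upper : S_upper := p_upper m_ne m_appZ m_jens m_strip m_anti m_up m_ind
theorem m_DDent : S_DDent := p_DDent
theorem m_quad : S_quad := p_quad
theorem m_DDzero : S_DDzero := p_DDzero m_DDent m_quad
theorem m_ap : S_ap := p_ap m_DDent
theorem m_gg : S_gg := p_gg
theorem m_rep : S_rep := p_rep
theorem m_main : S_main := p_main m_DDent
theorem m_asy : S_asy := p_asy m_gg m_rep m_main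
theorem m_lim : S_lim := p_lim
theorem m_der : S_der := p_der m_ne
theorem m_lower : S_lower := p_lower m_ne m_DDent m_DDzero m_ap m_asy m_lim m_der
theorem m_final : S_final := p_final m_up m_closed m_anti m_upper m_lower

end Pool.Agent.Lib.MP_cd509c_nt.DC
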