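import Pool.Agent.Lib.MP_cd509c_nt.DC.Defs2
import Pool.Agent.Lib.MP_cd509c_nt.DC.Main
import Pool.Agent.Lib.MP_cd509c_nt.DC.P.Kn
import Pool.Agent.Lib.MP_cd509c_nt.DC.P.chi
import Pool.Agent.Lib.MP_cd509c_nt.DC.P.dec
import Pool.Agent.Lib.MP_cd509c_nt.DC.P.f12
import Pool.Agent.Lib.MP_cd509c_nt.DC.P.left
import Pool.Agent.Lib.MP_cd509c_nt.DC.P.P1
import Pool.Agent.Lib.MP_cd509c_nt.DC.P.P2
import Pool.Agent.Lib.MP_cd509c_nt.DC.P.mid
import Pool.Agent.Lib.MP_cd509c_nt.DC.P.sharp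
import Pool.Agent.Lib.MP_cd509c_nt.DC.P.final2

/-!
# Assembly, stage 2
-/

set_option autoImplicit false

namespace Pool.Agent.Lib.MP_cd509c_nt.DC

open Pool.Agent.Lib.MP_cd509c_nt.DN

theorem m_Kn : S_Kn := p_Kn
theorem m_chi : S_chi := p_chi m_Kn
theorem m_dec : S_dec := p_dec m_Kn
theorem m_f12 : S_f12 := p_f12
theorem m_left : S_left := p_left m_Kn m_dec
theorem m_P1 : S_P1 := p_P1 m_Kn m_chi m_dec m_left
theorem m_P2 : S_P2 := p_P2 m_Kn m_dec m_left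
theorem m_mid : S_mid := p_mid m_ne m_strip m_link m_dec m_f12 m_P1 m_P2 p_HB
theorem m_sharp : S_sharp := p_sharp m_ne m_appZ m_jens m_strip m_up m_ind m_mid
theorem m_final2 : S_final2 := p_final2 m_up m_closed m_anti m_upper m_lower m_sharp

end Pool.Agent.Lib.MP_cd509c_nt.DC
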